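import Pool.Agent.H10.RIC.Stmts

/-! RIC, module MOM: moments modulo a number. -/

set_option autoImplicit false

namespace Pool.RIC

open Finset Pool.Agent.H98.ABCR Pool.SHA

/-- a finite set with small fibres -/
theorem mom_fib {α : Type} [DecidableEq α] (S : Finset α) {β : Type} [DecidableEq β] (f : α → β)
    (Φ : ℝ) (hΦ : ∀ b ∈ S.image f, ((S.filter (fun a => f a = b)).card : ℝ) ≤ Φ) :
    (S.card : ℝ) ≤ ((S.image f).card : ℝ) * Φ := by
  rw [card_eq_sum_card_image f S]
  push_cast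
  refine (sum_le_sum hΦ).trans ?_
  rw [sum_const, nsmul_eq_mul]

/-- a product of `t` squarefree numbers in at most `2 ^ (t ω(A))` ways -/
theorem mom_sqf {t : ℕ} (S : Finset (Fin t → ℕ)) (A : ℕ) (hA : A ≠ 0)
    (hS : ∀ w ∈ S, (∀ i, Squarefree (w i)) ∧ ∏ i, w i = A) : S.card ≤ (2 ^ om A) ^ t := by
  classical
  have h1 : S.card ≤ (Fintype.piFinset fun _ : Fin t => A.primeFactors.powerset).card := by
    apply card_le_card_of_injOn (fun w i => (w i).primeFactors)
    · intro w hw
      rw [mem_coe, Fintype.mem_piFinset]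
      intro i
      rw [mem_powerset]
      apply Nat.primeFactors_mono _ hA
      rw [← (hS w (mem_coe.1 hw)).2]
      exact dvd_prod_of_mem _ (mem_univ i)
    · intro w hw w' hw' h
      funext i
      have h2 := congrFun h i
      simp only at h2
      rw [← Nat.prod_primeFactors_of_squarefree ((hS w (mem_coe.1 hw)).1 i),
        ← Nat.prod_primeFactors_of_squarefree ((hS w' (mem_coe.1 hw')).1 i), h2]
  rw [Fintype.card_piFinset, prod_const, card_univ, Fintype.card_fin, card_powerset] at h1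
  exact h1

theorem mom_thm (h1 : Pool.MED.S_RTN) (h2 : Pool.FEX.S_OMB) : S_MOM := by
  intro t J ε hε
  classical
  obtain ⟨C1, hC1, hO1⟩ := h2 (2 ^ t) (ε / 2) (one_le_pow₀ (by norm_num)) (by linarith)
  obtain ⟨C2, hC2, hO2⟩ := h2 (2 * J + 1) (ε / 2)
    (by have : (0 : ℝ) ≤ J := Nat.cast_nonneg _
        linarith) (by linarith)
  refine ⟨2 * C2 * C1, by nlinarith, ?_⟩
  intro q e P U he heJ hP hU hPt
  have hq : 1 ≤ q := le_trans (Nat.one_le_pow _ _ (by omega)) hPt
  have hq1 : (1 : ℝ) ≤ q := by exact_mod_cast hq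
  -- the bound for one second tuple
  set Φ : ℝ := C1 * (q : ℝ) ^ (ε / 2) with hΦ
  have hΦ0 : 0 ≤ Φ := by positivity
  set Ψ : ℝ := 2 * (C2 * (q : ℝ) ^ (ε / 2)) with hΨ
  have hprod : ∀ w ∈ (Fintype.piFinset fun _ : Fin t => U),
      1 ≤ ∏ i, w i ∧ ∏ i, w i ≤ q ∧ (∏ i, w i).Coprime q := by
    intro w hw
    have hwU := Fintype.mem_piFinset.mp hw
    refine ⟨?_, ?_, ?_⟩
    · exact Nat.one_le_iff_ne_zero.mpr (prod_ne_zero_iff.mpr fun i _ => by
        have := (hU _ (hwU i)).2.2.1
        omega)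
    · refine le_trans ?_ hPt
      calc ∏ i, w i ≤ ∏ _i : Fin t, (2 * P) :=
            prod_le_prod' (fun i _ => (hU _ (hwU i)).2.2.2.le)
        _ = (2 * P) ^ t := by rw [prod_const, card_univ, Fintype.card_fin]
    · exact Nat.Coprime.prod_left fun i _ => (hU _ (hwU i)).2.1
  have hF : ∀ b : ℕ, (((Fintype.piFinset fun _ : Fin t => U).filter
      (fun w => (∏ i, w i) ^ e ≡ b [MOD q])).card : ℝ) ≤ Ψ * Φ := by
    intro b
    refine (mom_fib _ (fun w : Fin t → ℕ => ∏ i, w i) Φ ?_).trans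
      (mul_le_mul_of_nonneg_right ?_ hΦ0)
    · intro A hA
      obtain ⟨w, hw, rfl⟩ := mem_image.mp hA
      have hw' := mem_filter.mp hw
      obtain ⟨ha, hb, -⟩ := hprod w hw'.1
      have h3 := mom_sqf (((Fintype.piFinset fun _ : Fin t => U).filter
        (fun w => (∏ i, w i) ^ e ≡ b [MOD q])).filter (fun a => ∏ i, a i = ∏ i, w i))
        (∏ i, w i) (by omega) (by
          intro a ha
          have ha' := mem_filter.mp ha
          have ha2 := (mem_filter.mp ha'.1).1
          exact ⟨fun i => (hU _ (Fintype.mem_piFinset.mp ha2 i)).1, ha'.2⟩)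
      have h4 := hO1 (∏ i, w i) ha
      calc ((((Fintype.piFinset fun _ : Fin t => U).filter
        (fun w => (∏ i, w i) ^ e ≡ b [MOD q])).filter
          (fun a => ∏ i, a i = ∏ i, w i)).card : ℝ)
          ≤ (((2 ^ om (∏ i, w i)) ^ t : ℕ) : ℝ) := Nat.cast_le.2 h3
        _ = ((2 : ℝ) ^ t) ^ (om (∏ i, w i)) := by
          push_cast
          rw [← pow_mul, ← pow_mul, mul_comm]
        _ ≤ ((2 : ℝ) ^ t) ^ (om (∏ i, w i) + 1) :=
          pow_le_pow_right₀ (one_le_pow₀ (by norm_num)) (Nat.le_succ _)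
        _ ≤ C1 * ((∏ i, w i : ℕ) : ℝ) ^ (ε / 2) := h4
        _ ≤ Φ := by
          rw [hΦ]
          have h5 : ((∏ i, w i : ℕ) : ℝ) ≤ q := by exact_mod_cast hb
          exact mul_le_mul_of_nonneg_left
            (Real.rpow_le_rpow (Nat.cast_nonneg _) h5 (by linarith)) (by linarith)
    · have h3 := h1 q e q (((Fintype.piFinset fun _ : Fin t => U).filter
        (fun w => (∏ i, w i) ^ e ≡ b [MOD q])).image (fun w : Fin t → ℕ => ∏ i, w i))
        (by omega) (by omega) (by
          intro x hx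
          obtain ⟨w, hw, rfl⟩ := mem_image.mp hx
          obtain ⟨ha, hb, hc⟩ := hprod w (mem_filter.mp hw).1
          exact ⟨hc, hb⟩) (by
          intro x hx y hy
          obtain ⟨w, hw, rfl⟩ := mem_image.mp hx
          obtain ⟨w', hw', rfl⟩ := mem_image.mp hy
          exact (mem_filter.mp hw).2.trans (mem_filter.mp hw').2.symm)
      rw [Nat.div_self (by omega)] at h3
      have h4 := hO2 q hq
      calc ((((Fintype.piFinset fun _ : Fin t => U).filter
        (fun w => (∏ i, w i) ^ e ≡ b [MOD q])).image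
          (fun w : Fin t → ℕ => ∏ i, w i)).card : ℝ)
          ≤ (((2 * e) ^ q.primeFactors.card * (1 + 1) : ℕ) : ℝ) := Nat.cast_le.2 h3
        _ = 2 * (2 * (e : ℝ)) ^ om q := by
          push_cast
          unfold om
          ring
        _ ≤ 2 * (2 * (J : ℝ) + 1) ^ (om q + 1) := by
          have h5 : (e : ℝ) ≤ J := by exact_mod_cast heJ
          have h6 : (0 : ℝ) ≤ e := Nat.cast_nonneg _
          have h7 : (2 * (e : ℝ)) ^ om q ≤ (2 * (J : ℝ) + 1) ^ om q :=
            pow_le_pow_left₀ (by linarith) (by linarith) _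
          have h8 : (2 * (J : ℝ) + 1) ^ om q ≤ (2 * (J : ℝ) + 1) ^ (om q + 1) :=
            pow_le_pow_right₀ (by linarith) (Nat.le_succ _)
          linarith
        _ ≤ Ψ := by
          rw [hΨ]
          linarith
  have hΨ0 : 0 ≤ Ψ := by positivity
  -- number of the tuples
  have hcard : ((Fintype.piFinset fun _ : Fin t => U).card : ℝ) ≤ (P : ℝ) ^ t := by
    rw [Fintype.card_piFinset, prod_const, card_univ, Fintype.card_fin]
    have h3 : U.card ≤ P := by
      have h4 : U ⊆ Finset.Ico P (2 * P) := by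
        intro u hu
        rw [Finset.mem_Ico]
        exact (hU u hu).2.2
      have h5 := card_le_card h4
      rw [Nat.card_Ico] at h5
      omega
    exact_mod_cast Nat.pow_le_pow_left h3 t
  have h3 := mom_fib
    (((Fintype.piFinset fun _ : Fin t => U) ×ˢ (Fintype.piFinset fun _ : Fin t => U)).filter
    (fun w => (∏ i, w.1 i) ^ e ≡ (∏ i, w.2 i) ^ e [MOD q]))
    (fun w : (Fin t → ℕ) × (Fin t → ℕ) => w.2) (Ψ * Φ) (fun a _ => by
      refine le_trans (Nat.cast_le.2 (card_le_card_of_injOn (fun w => w.1) ?_ ?_))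
        (hF ((∏ i, a i) ^ e))
      · intro w hw
        have hw' := mem_filter.mp (mem_coe.mp hw)
        have hw2 := mem_filter.mp hw'.1
        have hw3 := mem_product.mp hw2.1
        rw [mem_coe]
        refine mem_filter.mpr ⟨hw3.1, ?_⟩
        have h4 := hw2.2
        rw [hw'.2] at h4
        exact h4
      · intro w hw w' hw' hww
        have h5 := (mem_filter.mp (mem_coe.mp hw)).2
        have h6 := (mem_filter.mp (mem_coe.mp hw')).2
        exact Prod.ext hww (h5.trans h6.symm))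
  have h7 : (((((Fintype.piFinset fun _ : Fin t => U) ×ˢ
      (Fintype.piFinset fun _ : Fin t => U)).filter
    (fun w => (∏ i, w.1 i) ^ e ≡ (∏ i, w.2 i) ^ e [MOD q])).image
        (fun w : (Fin t → ℕ) × (Fin t → ℕ) => w.2)).card : ℝ) ≤ (P : ℝ) ^ t := by
    refine le_trans (Nat.cast_le.2 (card_le_card (fun a ha => ?_))) hcard
    obtain ⟨w, hw, rfl⟩ := mem_image.mp ha
    exact (mem_product.mp (mem_filter.mp hw).1).2
  refine h3.trans ((mul_le_mul_of_nonneg_right h7 (mul_nonneg hΨ0 hΦ0)).trans (le_of_eq ?_))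
  rw [hΨ, hΦ]
  have h8 : (q : ℝ) ^ ε = (q : ℝ) ^ (ε / 2) * (q : ℝ) ^ (ε / 2) := by
    rw [← Real.rpow_add (by linarith)]
    congr 1
    ring
  rw [h8]
  ring

end Pool.RIC
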